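import Pool.Agent.H43.CM.Ch.C1

/-!
# CM, job Ch3: the coordinate changes as algebra isomorphisms

`exists_gamE`: `E = AlgEquiv.ofAlgHom (aeval (gam X)) (aeval Y)` where `gam X : Low n → MvPolynomial (Option (Kap n q hq)) ℂ` and
`Y : Option (Kap n q hq) → MvPolynomial (Low n) ℂ` is the inverse: the equations `lowMat z = lowMat (ext0 y') * xq q hq t` mean
`t = z (q+1, q)`, `y' (p, q) = z (p, q) - t * z (p, q+1)` for `p > q+1`, `y' e = z e` for the other `e`. In matrix form: with
`t = z (q+1,q)`: `lowMat (ext0 y') = lowMat z * xq q hq (-t)` (`xq t * xq (-t) = 1`: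
`Matrix.transvection_mul_transvection_same`), so define `Y (some e) = (lowMat X * xq q hq (-X (q+1,q))) e.1.1.1 e.1.1.2`,
`Y none = X (q+1,q)`; the entry `(q+1, q)` of `lowMat z * xq (-t)` is `z (q+1,q) - t * 1 = 0`.
The two compositions are the identity on the variables: `gam (Y) = X` and `Y (gam X) = X` (use `lowMat_gam`, `eq_lowMat`,
`lowMat_injective`, `map_gam`). `g = gam`, surjective: `g (Y evaluated at z) = z`. `aeval_E`: both sides are algebra
homomorphisms in `f`, check on variables with `map_gam`. `map_orig`: the ideal generated by the `E (X e) = gam X e`, which lie in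
the ideal of the variables (constant term 0: `gam 0 = 0`), and conversely the variables `X i = E (Y i)` and `Y i` lies in the ideal
of the variables.
`exists_gamE'`: the same for `gam'`: `lowMat z = S * lowMat (ext0 y') * S * xq t`, so `t = z (q+1,q)` (the matrix `S * N * S`,
`N = lowMat (ext0 y')`, has entry 0 at `(q+1, q)` since `(S * N * S) (q+1) q = N q (q+1) = 0`), and
`lowMat (ext0 y') = S * lowMat z * xq q hq (-t) * S`. Alternatively compose `exists_gamE` with the permutation of the variables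
`Kap n q hq` induced by `s`: `(S * lowMat (ext0 y') * S) = lowMat (ext0 (y' ∘ σ))`, `σ (i, j) = (s i, s j)`, and
`MvPolynomial.renameEquiv`.
-/

open MvPolynomial

noncomputable section

namespace CMT

variable {n : ℕ}

/-- a polynomial change of coordinates: an isomorphism of polynomial rings, the corresponding
bijection on points, preserving the ideal of the origin -/
structure CoordChange (ι ι' : Type) where
  E : MvPolynomial ι ℂ ≃ₐ[ℂ] MvPolynomial ι' ℂ
  g : (ι' → ℂ) → (ι → ℂ)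
  g_surj : Function.Surjective g
  aeval_E : ∀ (y : ι' → ℂ) (f : MvPolynomial ι ℂ), aeval y (E f) = aeval (g y) f
  map_orig : (Ideal.span (Set.range (X : ι → MvPolynomial ι ℂ))).map (E : _ →+* _) =
    Ideal.span (Set.range (X : ι' → MvPolynomial ι' ℂ))

/-- coordinate change from a natural family of mutually inverse maps (used for `gam` and `gam'`) -/
theorem exists_coordChange {ι ι' : Type}
    (G : ∀ (R : Type) [CommRing R], (ι' → R) → (ι → R))
    (H : ∀ (R : Type) [CommRing R], (ι → R) → (ι' → R))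
    (hG : ∀ (R S : Type) [CommRing R] [CommRing S] (f : R →+* S) (y : ι' → R) (e : ι),
      f (G R y e) = G S (fun i => f (y i)) e)
    (hH : ∀ (R S : Type) [CommRing R] [CommRing S] (f : R →+* S) (z : ι → R) (e : ι'),
      f (H R z e) = H S (fun i => f (z i)) e)
    (hGH : ∀ (R : Type) [CommRing R] (z : ι → R), G R (H R z) = z)
    (hHG : ∀ (R : Type) [CommRing R] (y : ι' → R), H R (G R y) = y)
    (hG0 : ∀ (R : Type) [CommRing R] (e : ι), G R (fun _ => 0) e = 0) :
    ∃ c : CoordChange ι ι', (∀ y, c.g y = G ℂ y) ∧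
      ∀ e, c.E (X e) = G _ (fun i => (X i : MvPolynomial ι' ℂ)) e := by
  have hH0 : ∀ (R : Type) [CommRing R] (e : ι'), H R (fun _ => 0) e = 0 := by
    intro R _ e
    have h := hHG R (fun _ => 0)
    have h2 : G R (fun _ => 0) = fun _ => 0 := funext (hG0 R)
    rw [h2] at h
    rw [h]
  obtain ⟨A, hA⟩ : ∃ A : MvPolynomial ι ℂ →ₐ[ℂ] MvPolynomial ι' ℂ,
      ∀ e, A (X e) = G _ (fun i => (X i : MvPolynomial ι' ℂ)) e := ⟨aeval _, fun e => aeval_X _ _⟩
  obtain ⟨B, hB⟩ : ∃ B : MvPolynomial ι' ℂ →ₐ[ℂ] MvPolynomial ι ℂ,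
      ∀ e, B (X e) = H _ (fun i => (X i : MvPolynomial ι ℂ)) e := ⟨aeval _, fun e => aeval_X _ _⟩
  have hAB : ∀ e, A (B (X e)) = X e := by
    intro e
    rw [hB]
    have h := hH _ _ (A : MvPolynomial ι ℂ →+* MvPolynomial ι' ℂ)
      (fun i => (X i : MvPolynomial ι ℂ)) e
    have h2 : (fun i => (A : MvPolynomial ι ℂ →+* MvPolynomial ι' ℂ) (X i)) =
        G _ (fun i => (X i : MvPolynomial ι' ℂ)) := funext hA
    rw [h2, hHG] at h
    exact h
  have hBA : ∀ e, B (A (X e)) = X e := by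
    intro e
    rw [hA]
    have h := hG _ _ (B : MvPolynomial ι' ℂ →+* MvPolynomial ι ℂ)
      (fun i => (X i : MvPolynomial ι' ℂ)) e
    have h2 : (fun i => (B : MvPolynomial ι' ℂ →+* MvPolynomial ι ℂ) (X i)) =
        H _ (fun i => (X i : MvPolynomial ι ℂ)) := funext hB
    rw [h2, hGH] at h
    exact h
  have hABi : A.comp B = AlgHom.id ℂ _ := MvPolynomial.algHom_ext (fun e => hAB e)
  have hBAi : B.comp A = AlgHom.id ℂ _ := MvPolynomial.algHom_ext (fun e => hBA e)
  obtain ⟨E, hEA, hEB⟩ : ∃ E : MvPolynomial ι ℂ ≃ₐ[ℂ] MvPolynomial ι' ℂ,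
      (∀ f, E f = A f) ∧ ∀ f, E (B f) = f :=
    ⟨AlgEquiv.ofAlgHom A B hABi hBAi, fun f => rfl, fun f => DFunLike.congr_fun hABi f⟩
  have hEX : ∀ e, E (X e) = G _ (fun i => (X i : MvPolynomial ι' ℂ)) e := by
    intro e
    rw [hEA, hA]
  -- membership in the ideal of the origin
  have hmemG : ∀ e, G _ (fun i => (X i : MvPolynomial ι' ℂ)) e ∈
      Ideal.span (Set.range (X : ι' → MvPolynomial ι' ℂ)) := by
    intro e
    rw [← Ideal.Quotient.eq_zero_iff_mem, hG]
    have h2 : (fun i : ι' => Ideal.Quotient.mk (Ideal.span (Set.range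
        (X : ι' → MvPolynomial ι' ℂ))) (X i)) = fun _ => 0 := by
      funext i
      rw [Ideal.Quotient.eq_zero_iff_mem]
      exact Ideal.subset_span ⟨i, rfl⟩
    rw [h2, hG0]
  have hmemH : ∀ e, H _ (fun i => (X i : MvPolynomial ι ℂ)) e ∈
      Ideal.span (Set.range (X : ι → MvPolynomial ι ℂ)) := by
    intro e
    rw [← Ideal.Quotient.eq_zero_iff_mem, hH]
    have h2 : (fun i : ι => Ideal.Quotient.mk (Ideal.span (Set.range
        (X : ι → MvPolynomial ι ℂ))) (X i)) = fun _ => 0 := by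
      funext i
      rw [Ideal.Quotient.eq_zero_iff_mem]
      exact Ideal.subset_span ⟨i, rfl⟩
    rw [h2, hH0]
  have hev : ∀ (y : ι' → ℂ) (f : MvPolynomial ι ℂ), aeval y (E f) = aeval (G ℂ y) f := by
    intro y f
    rw [hEA]
    obtain ⟨p, hp⟩ : ∃ p : MvPolynomial ι' ℂ →ₐ[ℂ] ℂ, p = aeval y := ⟨_, rfl⟩
    have hpX : ∀ i, p (X i) = y i := by
      intro i
      rw [hp, aeval_X]
    have h : p.comp A = (aeval (G ℂ y) : MvPolynomial ι ℂ →ₐ[ℂ] ℂ) := by
      apply MvPolynomial.algHom_ext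
      intro e
      rw [AlgHom.comp_apply, hA, aeval_X]
      have h := hG _ _ (p : MvPolynomial ι' ℂ →+* ℂ) (fun i => (X i : MvPolynomial ι' ℂ)) e
      have h2 : (fun i => (p : MvPolynomial ι' ℂ →+* ℂ) (X i)) = y := funext hpX
      rw [h2] at h
      exact h
    rw [← hp, ← h, AlgHom.comp_apply]
  have hor : (Ideal.span (Set.range (X : ι → MvPolynomial ι ℂ))).map
      (E : MvPolynomial ι ℂ →+* MvPolynomial ι' ℂ) =
      Ideal.span (Set.range (X : ι' → MvPolynomial ι' ℂ)) := by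
    rw [Ideal.map_span]
    apply le_antisymm
    · rw [Ideal.span_le]
      rintro _ ⟨_, ⟨e, rfl⟩, rfl⟩
      have h1 : (E : MvPolynomial ι ℂ →+* MvPolynomial ι' ℂ) (X e) =
          G _ (fun i => (X i : MvPolynomial ι' ℂ)) e := hEX e
      rw [SetLike.mem_coe, h1]
      exact hmemG e
    · rw [Ideal.span_le]
      rintro _ ⟨e, rfl⟩
      rw [← Ideal.map_span]
      have h1 := Ideal.mem_map_of_mem (E : MvPolynomial ι ℂ →+* MvPolynomial ι' ℂ) (hmemH e)
      have h2 : (E : MvPolynomial ι ℂ →+* MvPolynomial ι' ℂ)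
          (H _ (fun i => (X i : MvPolynomial ι ℂ)) e) = X e := by
        rw [← hB]
        exact hEB (X e)
      rw [h2] at h1
      exact h1
  exact ⟨⟨E, G ℂ, fun z => ⟨H ℂ z, hGH ℂ z⟩, hev, hor⟩, fun _ => rfl, hEX⟩

section inverse

variable {R : Type*} [CommRing R]

theorem xq_eq (q : ℕ) (hq : q + 1 < n) (t : R) :
    xq q hq t = Matrix.transvection (q1 q hq) (q0 q hq) t := rfl

theorem xq_mul_neg (q : ℕ) (hq : q + 1 < n) (t : R) : xq q hq t * xq q hq (-t) = 1 := by
  rw [xq_eq, xq_eq, Matrix.transvection_mul_transvection_same _ _ (q0_ne_q1 q hq).symm,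
    add_neg_cancel, Matrix.transvection_zero]

theorem xq_neg_mul (q : ℕ) (hq : q + 1 < n) (t : R) : xq q hq (-t) * xq q hq t = 1 := by
  rw [xq_eq, xq_eq, Matrix.transvection_mul_transvection_same _ _ (q0_ne_q1 q hq).symm,
    neg_add_cancel, Matrix.transvection_zero]

theorem mul_xq_q0 (q : ℕ) (hq : q + 1 < n) (t : R) (M : Matrix (Fin n) (Fin n) R) (i : Fin n) :
    (M * xq q hq t) i (q0 q hq) = M i (q0 q hq) + t * M i (q1 q hq) := by
  rw [xq_eq, Matrix.mul_transvection_apply_same]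

theorem mul_xq_ne (q : ℕ) (hq : q + 1 < n) (t : R) (M : Matrix (Fin n) (Fin n) R) (i : Fin n)
    {j : Fin n} (hj : j ≠ q0 q hq) : (M * xq q hq t) i j = M i j := by
  rw [xq_eq, Matrix.mul_transvection_apply_of_ne _ _ _ _ hj]

/-- the inverse of `gam` -/
def gamI (q : ℕ) (hq : q + 1 < n) (z : Low n → R) : Option (Kap n q hq) → R
  | none => z ⟨(q1 q hq, q0 q hq), q0_lt_q1 q hq⟩
  | some e => (lowMat z * xq q hq (-z ⟨(q1 q hq, q0 q hq), q0_lt_q1 q hq⟩)) e.1.1.1 e.1.1.2

/-- a lower unitriangular matrix times `xq` is lower unitriangular -/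
theorem mul_xq_low (q : ℕ) (hq : q + 1 < n) (t : R) {M : Matrix (Fin n) (Fin n) R}
    (h1 : ∀ i j, i < j → M i j = 0) (h2 : ∀ i, M i i = 1) :
    (∀ i j, i < j → (M * xq q hq t) i j = 0) ∧ ∀ i, (M * xq q hq t) i i = 1 := by
  constructor
  · intro i j hij
    by_cases hj : j = q0 q hq
    · subst hj
      rw [mul_xq_q0, h1 _ _ hij, h1 _ _ (hij.trans (q0_lt_q1 q hq))]
      simp
    · rw [mul_xq_ne q hq t M i hj, h1 _ _ hij]
  · intro i
    by_cases hi : i = q0 q hq
    · subst hi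
      rw [mul_xq_q0, h2, h1 _ _ (q0_lt_q1 q hq)]
      simp
    · rw [mul_xq_ne q hq t M i hi, h2]

/-- a lower unitriangular matrix with entry zero at `(q+1, q)` comes from `ext0` -/
theorem eq_lowMat_ext0 {q : ℕ} {hq : q + 1 < n} {M : Matrix (Fin n) (Fin n) R}
    (h1 : ∀ i j, i < j → M i j = 0) (h2 : ∀ i, M i i = 1) (h3 : M (q1 q hq) (q0 q hq) = 0) :
    lowMat (ext0 (fun e : Kap n q hq => M e.1.1.1 e.1.1.2)) = M := by
  have h4 : (ext0 (fun e : Kap n q hq => M e.1.1.1 e.1.1.2)) = fun e : Low n => M e.1.1 e.1.2 := by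
    funext e
    unfold ext0
    split_ifs with h
    · rw [h, h3]
    · rfl
  rw [h4, ← eq_lowMat h1 h2]

theorem gam_gamI (q : ℕ) (hq : q + 1 < n) (z : Low n → R) : gam (gamI q hq z) = z := by
  apply lowMat_injective
  rw [lowMat_gam]
  set t := z ⟨(q1 q hq, q0 q hq), q0_lt_q1 q hq⟩ with ht
  have hM := mul_xq_low q hq (-t) (M := lowMat z) (fun i j h => lowMat_gt z h) (lowMat_diag z)
  have h3 : (lowMat z * xq q hq (-t)) (q1 q hq) (q0 q hq) = 0 := by
    rw [mul_xq_q0, lowMat_diag, lowMat_lt z (q0_lt_q1 q hq), ← ht]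
    ring
  have h4 : lowMat (ext0 fun e : Kap n q hq => gamI q hq z (some e)) =
      lowMat z * xq q hq (-t) := eq_lowMat_ext0 hM.1 hM.2 h3
  have h5 : gamI q hq z none = t := rfl
  rw [h4, h5, Matrix.mul_assoc, xq_neg_mul, Matrix.mul_one]

theorem gam_q1q0 {q : ℕ} {hq : q + 1 < n} (y : Option (Kap n q hq) → R) :
    gam y ⟨(q1 q hq, q0 q hq), q0_lt_q1 q hq⟩ = y none := by
  unfold gam
  rw [mul_xq_q0, lowMat_diag, lowMat_lt _ (q0_lt_q1 q hq)]
  simp [ext0]

theorem gamI_gam {q : ℕ} {hq : q + 1 < n} (y : Option (Kap n q hq) → R) :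
    gamI q hq (gam y) = y := by
  funext o
  cases o with
  | none => exact gam_q1q0 y
  | some e =>
    unfold gamI
    simp only
    rw [gam_q1q0, lowMat_gam, Matrix.mul_assoc, xq_mul_neg, Matrix.mul_one,
      lowMat_lt _ e.1.2]
    have he : ¬ (e.1.1 = (q1 q hq, q0 q hq)) := e.2
    simp [ext0, he]

theorem map_gamI {S : Type*} [CommRing S] (f : R →+* S) (q : ℕ) (hq : q + 1 < n)
    (z : Low n → R) (o : Option (Kap n q hq)) :
    f (gamI q hq z o) = gamI q hq (fun i => f (z i)) o := by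
  cases o with
  | none => rfl
  | some e =>
    unfold gamI
    simp only
    have hx : (xq q hq (-z ⟨(q1 q hq, q0 q hq), q0_lt_q1 q hq⟩)).map f =
        xq q hq (-f (z ⟨(q1 q hq, q0 q hq), q0_lt_q1 q hq⟩)) := by
      ext i j
      simp only [xq, Matrix.map_apply, Matrix.add_apply, Matrix.one_apply, Matrix.single_apply,
        map_add, apply_ite f, map_one, map_zero, map_neg]
    rw [← lowMat_map, ← hx, ← Matrix.map_mul, Matrix.map_apply]

theorem gam_zero {q : ℕ} {hq : q + 1 < n} (e : Low n) :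
    gam (fun _ : Option (Kap n q hq) => (0 : R)) e = 0 := by
  unfold gam
  have h1 : (ext0 fun _ : Kap n q hq => (0 : R)) = fun _ => 0 := by
    funext e
    simp [ext0]
  have h2 : xq q hq (0 : R) = 1 := by
    rw [xq_eq, Matrix.transvection_zero]
  rw [h1, h2, lowMat_zero, Matrix.mul_one, Matrix.one_apply_ne e.2.ne']

end inverse

theorem exists_gamE (q : ℕ) (hq : q + 1 < n) :
    ∃ c : CoordChange (Low n) (Option (Kap n q hq)), (∀ y, c.g y = gam y) ∧
      ∀ e, c.E (X e) = gam (fun i => (X i : MvPolynomial (Option (Kap n q hq)) ℂ)) e :=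
  exists_coordChange (fun _ _ => gam) (fun _ _ => gamI q hq)
    (fun _ _ _ _ f y e => map_gam f y e) (fun _ _ _ _ f z e => map_gamI f q hq z e)
    (fun _ _ z => gam_gamI q hq z) (fun _ _ y => gamI_gam y) (fun _ _ e => gam_zero e)

end CMT
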