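import Pool.Agent.H43.CM.Ch.C3

/-!
# CM, job Ch3b: the second coordinate change

See the header of `Ch/C3.lean` (last paragraph).
-/

open MvPolynomial

noncomputable section

namespace CMT

variable {n : ℕ}

section C3b
variable {R : Type*} [CommRing R]

theorem c3b_xq_apply (q : ℕ) (hq : q + 1 < n) (t : R) (Z : Matrix (Fin n) (Fin n) R)
    (i j : Fin n) :
    (Z * xq q hq t) i j = Z i j + if j = q0 q hq then Z i (q1 q hq) * t else 0 := by
  unfold xq
  rw [Matrix.mul_add, Matrix.mul_one, Matrix.add_apply]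
  congr 1
  split_ifs with h
  · subst h
    rw [Matrix.mul_single_apply_same]
  · rw [Matrix.mul_single_apply_of_ne _ _ _ _ _ h]

theorem c3b_xq_mul (q : ℕ) (hq : q + 1 < n) (s t : R) : xq q hq s * xq q hq t = xq q hq (s + t) := by
  have hne : q1 q hq ≠ q0 q hq := by
    intro h
    have := congrArg Fin.val h
    simp [q1, q0] at this
  unfold xq
  rw [Matrix.add_mul, Matrix.one_mul, Matrix.mul_add, Matrix.mul_one,
    Matrix.single_mul_single_of_ne _ _ _ _ hne.symm, add_zero, add_assoc, ← Matrix.single_add,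
    add_comm t s]

theorem c3b_xq_zero (q : ℕ) (hq : q + 1 < n) : xq q hq (0 : R) = 1 := by
  unfold xq
  rw [Matrix.single_zero, add_zero]

theorem c3b_conj_apply (q : ℕ) (hq : q + 1 < n) (A : Matrix (Fin n) (Fin n) R) (i j : Fin n) :
    (permMat R (sr q hq) * A * permMat R (sr q hq)) i j = A (sr q hq i) (sr q hq j) := by
  rw [mul_permMat_apply, permMat_mul_apply]
  unfold sr
  rw [Equiv.swap_inv]

theorem c3b_conj_conj (q : ℕ) (hq : q + 1 < n) (A : Matrix (Fin n) (Fin n) R) :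
    permMat R (sr q hq) * (permMat R (sr q hq) * A * permMat R (sr q hq)) *
      permMat R (sr q hq) = A := by
  ext i j
  rw [c3b_conj_apply, c3b_conj_apply]
  unfold sr
  rw [Equiv.swap_apply_self, Equiv.swap_apply_self]

theorem c3b_sr_lt (q : ℕ) (hq : q + 1 < n) {i j : Fin n} (h : i < j)
    (h' : ¬ (i = q0 q hq ∧ j = q1 q hq)) : sr q hq i < sr q hq j := by
  have e0 : (q0 q hq).val = q := rfl
  have e1 : (q1 q hq).val = q + 1 := rfl
  unfold sr
  rw [Equiv.swap_apply_def, Equiv.swap_apply_def]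
  rw [Fin.lt_def] at h
  simp only [Fin.ext_iff] at h' ⊢
  rw [Fin.lt_def]
  split_ifs <;> omega

theorem c3b_lt (q : ℕ) (hq : q + 1 < n) : q0 q hq < q1 q hq := by
  simp [q0, q1, Fin.lt_def]

/-- the entry `(q+1, q)` -/
def c3bE (q : ℕ) (hq : q + 1 < n) : Low n := ⟨(q1 q hq, q0 q hq), c3b_lt q hq⟩

/-- the matrix of the inverse coordinate change -/
def c3bM (q : ℕ) (hq : q + 1 < n) (z : Low n → R) : Matrix (Fin n) (Fin n) R :=
  permMat R (sr q hq) * (lowMat z * xq q hq (-z (c3bE q hq))) * permMat R (sr q hq)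

/-- the inverse of `gam'` -/
def c3bY (q : ℕ) (hq : q + 1 < n) (z : Low n → R) : Option (Kap n q hq) → R
  | none => z (c3bE q hq)
  | some k => c3bM q hq z k.1.1.1 k.1.1.2

theorem c3b_A_lt (q : ℕ) (hq : q + 1 < n) (z : Low n → R) (t : R) {i j : Fin n} (h : i < j) :
    (lowMat z * xq q hq t) i j = 0 := by
  rw [c3b_xq_apply, lowMat_gt z h, zero_add]
  split_ifs with hj
  · have : i < q1 q hq := lt_trans (hj ▸ h) (c3b_lt q hq)
    rw [lowMat_gt z this, zero_mul]
  · rfl

theorem c3b_A_diag (q : ℕ) (hq : q + 1 < n) (z : Low n → R) (t : R) (i : Fin n) :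
    (lowMat z * xq q hq t) i i = 1 := by
  rw [c3b_xq_apply, lowMat_diag]
  split_ifs with hj
  · have : i < q1 q hq := hj ▸ c3b_lt q hq
    rw [lowMat_gt z this, zero_mul, add_zero]
  · rw [add_zero]

theorem c3b_A_E (q : ℕ) (hq : q + 1 < n) (z : Low n → R) :
    (lowMat z * xq q hq (-z (c3bE q hq))) (q1 q hq) (q0 q hq) = 0 := by
  rw [c3b_xq_apply, if_pos rfl, lowMat_diag, lowMat_lt z (c3b_lt q hq), one_mul]
  exact add_neg_cancel _

theorem c3b_sr_q0 (q : ℕ) (hq : q + 1 < n) : sr q hq (q0 q hq) = q1 q hq := by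
  unfold sr
  rw [Equiv.swap_apply_left]

theorem c3b_sr_q1 (q : ℕ) (hq : q + 1 < n) : sr q hq (q1 q hq) = q0 q hq := by
  unfold sr
  rw [Equiv.swap_apply_right]

theorem c3b_M_eq (q : ℕ) (hq : q + 1 < n) (z : Low n → R) :
    c3bM q hq z = lowMat (ext0 fun k : Kap n q hq => c3bY q hq z (some k)) := by
  have h1 : ∀ i j, i < j → c3bM q hq z i j = 0 := by
    intro i j h
    unfold c3bM
    rw [c3b_conj_apply]
    by_cases h' : i = q0 q hq ∧ j = q1 q hq
    · rw [h'.1, h'.2, c3b_sr_q0, c3b_sr_q1]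
      exact c3b_A_E q hq z
    · exact c3b_A_lt q hq z _ (c3b_sr_lt q hq h h')
  have h2 : ∀ i, c3bM q hq z i i = 1 := by
    intro i
    unfold c3bM
    rw [c3b_conj_apply]
    exact c3b_A_diag q hq z _ _
  rw [eq_lowMat h1 h2]
  congr 1
  funext e
  unfold ext0
  split_ifs with he
  · rw [he]
    unfold c3bM
    show (permMat R (sr q hq) * (lowMat z * xq q hq (-z (c3bE q hq))) * permMat R (sr q hq))
      (q1 q hq) (q0 q hq) = 0
    rw [c3b_conj_apply, c3b_sr_q0, c3b_sr_q1]
    exact c3b_A_lt q hq z _ (c3b_lt q hq)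
  · rfl

theorem c3b_gam_Y (q : ℕ) (hq : q + 1 < n) (z : Low n → R) : gam' (c3bY q hq z) = z := by
  apply lowMat_injective
  rw [lowMat_gam', ← c3b_M_eq]
  show permMat R (sr q hq) * c3bM q hq z * permMat R (sr q hq) * xq q hq (z (c3bE q hq)) = lowMat z
  unfold c3bM
  rw [c3b_conj_conj, Matrix.mul_assoc, c3b_xq_mul, neg_add_cancel, c3b_xq_zero, Matrix.mul_one]

theorem c3b_gam_E (q : ℕ) (hq : q + 1 < n) (y : Option (Kap n q hq) → R) :
    gam' y (c3bE q hq) = y none := by
  have h := congrFun (congrFun (lowMat_gam' y) (q1 q hq)) (q0 q hq)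
  rw [lowMat_lt _ (c3b_lt q hq), c3b_xq_apply, if_pos rfl, c3b_conj_apply, c3b_conj_apply,
    c3b_sr_q0, c3b_sr_q1, lowMat_gt _ (c3b_lt q hq), lowMat_diag, zero_add, one_mul] at h
  exact h

theorem c3b_Y_gam (q : ℕ) (hq : q + 1 < n) (y : Option (Kap n q hq) → R) :
    c3bY q hq (gam' y) = y := by
  funext k
  cases k with
  | none => exact c3b_gam_E q hq y
  | some k =>
    show c3bM q hq (gam' y) k.1.1.1 k.1.1.2 = y (some k)
    have h1 : c3bM q hq (gam' y) = lowMat (ext0 fun i => y (some i)) := by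
      unfold c3bM
      rw [c3b_gam_E, lowMat_gam', Matrix.mul_assoc _ (xq q hq (y none)), c3b_xq_mul,
        add_neg_cancel, c3b_xq_zero, Matrix.mul_one, c3b_conj_conj]
    rw [h1, lowMat_lt _ k.1.2]
    unfold ext0
    rw [dif_neg k.2]

theorem c3b_xq_map {S : Type*} [CommRing S] (f : R →+* S) (q : ℕ) (hq : q + 1 < n) (t : R) :
    (xq q hq t).map f = xq q hq (f t) := by
  ext i j
  unfold xq
  rw [Matrix.map_apply, Matrix.add_apply, Matrix.add_apply, map_add, Matrix.single_apply,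
    Matrix.single_apply, Matrix.one_apply, Matrix.one_apply]
  split_ifs <;> simp

theorem c3b_Y_map {S : Type*} [CommRing S] (f : R →+* S) (q : ℕ) (hq : q + 1 < n)
    (z : Low n → R) (i : Option (Kap n q hq)) :
    f (c3bY q hq z i) = c3bY q hq (fun e => f (z e)) i := by
  cases i with
  | none => rfl
  | some k =>
    show f (c3bM q hq z k.1.1.1 k.1.1.2) = c3bM q hq (fun e => f (z e)) k.1.1.1 k.1.1.2
    have h : (c3bM q hq z).map f = c3bM q hq (fun e => f (z e)) := by
      unfold c3bM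
      rw [Matrix.map_mul, Matrix.map_mul, Matrix.map_mul, permMat_map, lowMat_map, c3b_xq_map,
        map_neg]
    rw [← h, Matrix.map_apply]

theorem c3b_Y_zero (q : ℕ) (hq : q + 1 < n) (i : Option (Kap n q hq)) :
    c3bY q hq (fun _ : Low n => (0 : R)) i = 0 := by
  have h : (fun _ : Low n => (0 : R)) = gam' (fun _ : Option (Kap n q hq) => (0 : R)) := by
    apply lowMat_injective
    rw [lowMat_gam', lowMat_zero, c3b_xq_zero, Matrix.mul_one]
    have h2 : (ext0 fun _ : Kap n q hq => (0 : R)) = fun _ : Low n => (0 : R) := by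
      funext e
      unfold ext0
      split_ifs <;> rfl
    rw [h2, lowMat_zero, Matrix.mul_one]
    ext i j
    have := c3b_conj_apply q hq (1 : Matrix (Fin n) (Fin n) R) i j
    rw [Matrix.mul_one] at this
    rw [this]
    by_cases hij : i = j
    · subst hij
      rw [Matrix.one_apply_eq, Matrix.one_apply_eq]
    · rw [Matrix.one_apply_ne hij, Matrix.one_apply_ne (fun h => hij ((sr q hq).injective h))]
  rw [h, c3b_Y_gam]

theorem c3b_gam_zero (q : ℕ) (hq : q + 1 < n) :
    gam' (fun _ : Option (Kap n q hq) => (0 : R)) = fun _ : Low n => (0 : R) := by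
  have h : (fun _ : Option (Kap n q hq) => (0 : R)) = c3bY q hq (fun _ : Low n => (0 : R)) := by
    funext i
    rw [c3b_Y_zero]
  rw [h, c3b_gam_Y]

theorem c3b_gam_mem (I : Ideal R) (q : ℕ) (hq : q + 1 < n) (y : Option (Kap n q hq) → R)
    (hy : ∀ i, y i ∈ I) (e : Low n) : gam' y e ∈ I := by
  rw [← Ideal.Quotient.eq_zero_iff_mem, map_gam' (Ideal.Quotient.mk I)]
  have : (fun i => Ideal.Quotient.mk I (y i)) = fun _ => 0 := by
    funext i
    exact Ideal.Quotient.eq_zero_iff_mem.2 (hy i)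
  rw [this, c3b_gam_zero]

theorem c3b_Y_mem (I : Ideal R) (q : ℕ) (hq : q + 1 < n) (z : Low n → R)
    (hz : ∀ e, z e ∈ I) (i : Option (Kap n q hq)) : c3bY q hq z i ∈ I := by
  rw [← Ideal.Quotient.eq_zero_iff_mem, c3b_Y_map (Ideal.Quotient.mk I)]
  have : (fun e => Ideal.Quotient.mk I (z e)) = fun _ => 0 := by
    funext e
    exact Ideal.Quotient.eq_zero_iff_mem.2 (hz e)
  rw [this, c3b_Y_zero]

end C3b

theorem exists_gamE' (q : ℕ) (hq : q + 1 < n) :
    ∃ c : CoordChange (Low n) (Option (Kap n q hq)), (∀ y, c.g y = gam' y) ∧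
      ∀ e, c.E (X e) = gam' (fun i => (X i : MvPolynomial (Option (Kap n q hq)) ℂ)) e := by
  obtain ⟨F, hF⟩ : ∃ F : MvPolynomial (Low n) ℂ →ₐ[ℂ] MvPolynomial (Option (Kap n q hq)) ℂ,
      ∀ e, F (X e) = gam' (fun i => (X i : MvPolynomial (Option (Kap n q hq)) ℂ)) e :=
    ⟨aeval (gam' fun i => (X i : MvPolynomial (Option (Kap n q hq)) ℂ)), fun e => aeval_X _ _⟩
  obtain ⟨G, hG⟩ : ∃ G : MvPolynomial (Option (Kap n q hq)) ℂ →ₐ[ℂ] MvPolynomial (Low n) ℂ,
      ∀ i, G (X i) = c3bY q hq (fun e => (X e : MvPolynomial (Low n) ℂ)) i :=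
    ⟨aeval (c3bY q hq fun e => (X e : MvPolynomial (Low n) ℂ)), fun e => aeval_X _ _⟩
  have h1 : F.comp G = AlgHom.id ℂ _ := by
    apply MvPolynomial.algHom_ext
    intro i
    rw [AlgHom.comp_apply, hG, AlgHom.id_apply]
    have := c3b_Y_map (F : MvPolynomial (Low n) ℂ →+* MvPolynomial (Option (Kap n q hq)) ℂ) q hq
      (fun e => (X e : MvPolynomial (Low n) ℂ)) i
    rw [AlgHom.coe_toRingHom] at this
    rw [this]
    simp only [hF]
    rw [c3b_Y_gam]
  have h2 : G.comp F = AlgHom.id ℂ _ := by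
    apply MvPolynomial.algHom_ext
    intro e
    rw [AlgHom.comp_apply, hF, AlgHom.id_apply]
    have := map_gam' (G : MvPolynomial (Option (Kap n q hq)) ℂ →+* MvPolynomial (Low n) ℂ)
      (fun i => (X i : MvPolynomial (Option (Kap n q hq)) ℂ)) e
    rw [AlgHom.coe_toRingHom] at this
    rw [this]
    simp only [hG]
    rw [c3b_gam_Y]
  refine ⟨{ E := AlgEquiv.ofAlgHom F G h1 h2, g := gam', g_surj := ?_, aeval_E := ?_,
            map_orig := ?_ }, fun y => rfl, fun e => hF e⟩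
  · intro z
    exact ⟨c3bY q hq z, c3b_gam_Y q hq z⟩
  · intro y f
    have h3 : (aeval y : MvPolynomial (Option (Kap n q hq)) ℂ →ₐ[ℂ] ℂ).comp F =
        aeval (gam' y) := by
      apply MvPolynomial.algHom_ext
      intro e
      rw [AlgHom.comp_apply, hF, aeval_X]
      have := map_gam' ((aeval y : MvPolynomial (Option (Kap n q hq)) ℂ →ₐ[ℂ] ℂ) :
        MvPolynomial (Option (Kap n q hq)) ℂ →+* ℂ)
        (fun i => (X i : MvPolynomial (Option (Kap n q hq)) ℂ)) e
      rw [AlgHom.coe_toRingHom] at this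
      rw [this]
      simp only [aeval_X]
    exact DFunLike.congr_fun h3 f
  · apply le_antisymm
    · rw [Ideal.map_span, Ideal.span_le]
      rintro _ ⟨_, ⟨e, rfl⟩, rfl⟩
      show F (X e) ∈ _
      rw [hF]
      exact c3b_gam_mem _ q hq _ (fun i => Ideal.subset_span (Set.mem_range_self i)) e
    · rw [Ideal.span_le]
      rintro _ ⟨i, rfl⟩
      have h4 : F (c3bY q hq (fun e => (X e : MvPolynomial (Low n) ℂ)) i) = X i := by
        rw [← hG]
        exact DFunLike.congr_fun h1 (X i)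
      show (X i : MvPolynomial (Option (Kap n q hq)) ℂ) ∈ _
      rw [← h4]
      exact Ideal.mem_map_of_mem _ (c3b_Y_mem _ q hq _ (fun e => Ideal.subset_span (Set.mem_range_self e)) i)

end CMT
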