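import Pool.Agent.H43.CM.A.A0

/-!
# CM, job Ch1: the matrices of `gam y` and `gam' y`

Let `N = lowMat (ext0 y')` (lower unitriangular with entry 0 at `(q+1, q)`), `S = permMat (sr q hq)`,
`X = xq q hq t = transvection (q+1) q t`. `gam y` is the family of the lower entries of `N * X`, `gam' y` those of `S * N * S * X`.
`lowMat_gam`: `N * X` is lower triangular with ones on the diagonal (product of two lower unitriangular matrices, or
column `q` of `N * X` is `N_q + t N_{q+1}`, other columns unchanged: `Matrix.mul_transvection_apply_same`, `..._of_ne`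
applied with `xq q hq t = Matrix.transvection (q1 q hq) (q0 q hq) t := rfl`), so `eq_lowMat`.
`lowMat_gam'`: `(S * N * S) i j = N (s i) (s j)` (`permMat_mul_apply`, `mul_permMat_apply`, `s⁻¹ = s`). For `i < j` one has
`s i < s j` unless `(i, j) = (q, q+1)`, and then `N (q+1) q = 0`. So `S * N * S` is lower unitriangular, and so is its product with `X`.
`map_gam`, `map_gam'`: ring homomorphisms commute with matrix products (`Matrix.map_mul`), `lowMat_map`, `permMat_map`,
and with `ext0` (`map_zero`) and `xq` (`map_one`, `map_zero`).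
-/

open MvPolynomial

noncomputable section

namespace CMT

variable {n : ℕ}

theorem Ch1_ext0_map {R S : Type*} [CommRing R] [CommRing S] (f : R →+* S) {q : ℕ}
    {hq : q + 1 < n} (y : Kap n q hq → R) (e : Low n) :
    f (ext0 y e) = ext0 (fun i => f (y i)) e := by
  unfold ext0
  split_ifs
  · exact map_zero f
  · rfl

theorem Ch1_xq_map {R S : Type*} [CommRing R] [CommRing S] (f : R →+* S) {q : ℕ}
    {hq : q + 1 < n} (t : R) : (xq q hq t).map f = xq q hq (f t) := by
  unfold xq
  ext a b
  rw [Matrix.map_apply, Matrix.add_apply, Matrix.add_apply, map_add]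
  congr 1
  · by_cases h : a = b
    · subst h
      rw [Matrix.one_apply_eq, Matrix.one_apply_eq, map_one]
    · rw [Matrix.one_apply_ne h, Matrix.one_apply_ne h, map_zero]
  · rw [Matrix.single_apply, Matrix.single_apply]
    split_ifs
    · rfl
    · exact map_zero f

/-- `gam` and `gam'` commute with ring homomorphisms -/
theorem map_gam {R S : Type*} [CommRing R] [CommRing S] (f : R →+* S) {q : ℕ} {hq : q + 1 < n}
    (y : Option (Kap n q hq) → R) (e : Low n) : f (gam y e) = gam (fun i => f (y i)) e := by
  unfold gam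
  have h : (lowMat (ext0 fun i => y (some i)) * xq q hq (y none)).map f =
      lowMat (ext0 fun i => f (y (some i))) * xq q hq (f (y none)) := by
    rw [Matrix.map_mul, lowMat_map, Ch1_xq_map]
    congr 2
    funext e
    exact Ch1_ext0_map f _ e
  exact congrFun (congrFun h e.1.1) e.1.2

theorem map_gam' {R S : Type*} [CommRing R] [CommRing S] (f : R →+* S) {q : ℕ} {hq : q + 1 < n}
    (y : Option (Kap n q hq) → R) (e : Low n) : f (gam' y e) = gam' (fun i => f (y i)) e := by
  unfold gam'
  have h : (permMat R (sr q hq) * lowMat (ext0 fun i => y (some i)) * permMat R (sr q hq) *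
      xq q hq (y none)).map f =
      permMat S (sr q hq) * lowMat (ext0 fun i => f (y (some i))) * permMat S (sr q hq) *
      xq q hq (f (y none)) := by
    rw [Matrix.map_mul, Matrix.map_mul, Matrix.map_mul, lowMat_map, Ch1_xq_map, permMat_map]
    congr 4
    funext e
    exact Ch1_ext0_map f _ e
  exact congrFun (congrFun h e.1.1) e.1.2

/-- multiplication by `xq` on the right -/
theorem Ch1_mul_xq {R : Type*} [CommRing R] {q : ℕ} {hq : q + 1 < n} (M : Matrix (Fin n) (Fin n) R)
    (t : R) (h1 : ∀ i j, i < j → M i j = 0) (h2 : ∀ i, M i i = 1) :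
    (∀ i j, i < j → (M * xq q hq t) i j = 0) ∧ ∀ i, (M * xq q hq t) i i = 1 := by
  have hx : xq q hq t = Matrix.transvection (q1 q hq) (q0 q hq) t := rfl
  have hlt := q0_lt_q1 q hq
  rw [hx]
  constructor
  · intro i j hij
    by_cases hj : j = q0 q hq
    · subst hj
      rw [Matrix.mul_transvection_apply_same, h1 i _ hij, h1 i _ (hij.trans hlt), mul_zero,
        add_zero]
    · rw [Matrix.mul_transvection_apply_of_ne _ _ _ _ hj, h1 i j hij]
  · intro i
    by_cases hi : i = q0 q hq
    · subst hi
      rw [Matrix.mul_transvection_apply_same, h2, h1 _ _ hlt, mul_zero, add_zero]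
    · rw [Matrix.mul_transvection_apply_of_ne _ _ _ _ hi, h2]

/-- the matrix of `gam y` -/
theorem lowMat_gam {R : Type*} [CommRing R] {q : ℕ} {hq : q + 1 < n}
    (y : Option (Kap n q hq) → R) :
    lowMat (gam y) = lowMat (ext0 fun i => y (some i)) * xq q hq (y none) := by
  obtain ⟨h1, h2⟩ := Ch1_mul_xq (hq := hq) (lowMat (ext0 fun i => y (some i))) (y none)
    (fun i j h => lowMat_gt _ h) (fun i => lowMat_diag _ i)
  exact (eq_lowMat h1 h2).symm

theorem Ch1_conj {R : Type*} [CommRing R] {q : ℕ} {hq : q + 1 < n} (z : Kap n q hq → R) :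
    (∀ i j, i < j → (permMat R (sr q hq) * lowMat (ext0 z) * permMat R (sr q hq)) i j = 0) ∧
    ∀ i, (permMat R (sr q hq) * lowMat (ext0 z) * permMat R (sr q hq)) i i = 1 := by
  have hs : (sr q hq)⁻¹ = sr q hq := Equiv.swap_inv _ _
  have he : ∀ i j, (permMat R (sr q hq) * lowMat (ext0 z) * permMat R (sr q hq)) i j =
      lowMat (ext0 z) (sr q hq i) (sr q hq j) := by
    intro i j
    rw [mul_permMat_apply, permMat_mul_apply, hs]
  constructor
  · intro i j hij
    rw [he]
    by_cases hc : i = q0 q hq ∧ j = q1 q hq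
    · obtain ⟨rfl, rfl⟩ := hc
      rw [sr_q0, sr_q1, lowMat_lt _ (q0_lt_q1 q hq)]
      unfold ext0
      rw [dif_pos rfl]
    · apply lowMat_gt
      have hv : ∀ k : Fin n, (sr q hq k).val = if k = q0 q hq then q + 1 else
          if k = q1 q hq then q else k.val := by
        intro k
        by_cases h0 : k = q0 q hq
        · subst h0
          rw [sr_q0, if_pos rfl]
          rfl
        · by_cases h1 : k = q1 q hq
          · subst h1
            rw [sr_q1, if_neg h0, if_pos rfl]
            rfl
          · rw [sr_ne q hq h0 h1, if_neg h0, if_neg h1]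
      have e0 : ∀ k : Fin n, k = q0 q hq ↔ k.val = q := fun k => Fin.ext_iff
      have e1 : ∀ k : Fin n, k = q1 q hq ↔ k.val = q + 1 := fun k => Fin.ext_iff
      rw [Fin.lt_def, hv, hv]
      rw [Fin.lt_def] at hij
      simp only [e0, e1] at hc ⊢
      split_ifs <;> omega
  · intro i
    rw [he, lowMat_diag]

theorem lowMat_gam' {R : Type*} [CommRing R] {q : ℕ} {hq : q + 1 < n}
    (y : Option (Kap n q hq) → R) :
    lowMat (gam' y) = permMat R (sr q hq) * lowMat (ext0 fun i => y (some i)) *
      permMat R (sr q hq) * xq q hq (y none) := by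
  obtain ⟨h1, h2⟩ := Ch1_conj (R := R) (hq := hq) (fun i => y (some i))
  obtain ⟨h3, h4⟩ := Ch1_mul_xq (hq := hq) _ (y none) h1 h2
  exact (eq_lowMat h3 h4).symm

end CMT
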