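import Pool.Agent.H43.CM.A.A6
import Pool.Agent.H43.CM.Ch.C1

/-!
# CM, Ch2: the point level description of the four sets, `(a, b) ≠ 0` (A'1, A'2)
-/

open MvPolynomial

noncomputable section

namespace CMT

variable {n : ℕ}

theorem ext0_map {R S : Type*} [CommRing R] [CommRing S] (f : R →+* S) {q : ℕ} {hq : q + 1 < n}
    (y : Kap n q hq → R) : (fun e => f (ext0 y e)) = ext0 (fun i => f (y i)) := by
  ext e
  unfold ext0
  split_ifs
  · exact map_zero f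
  · rfl

theorem aeval_aP (x w : Equiv.Perm (Fin n)) (q : ℕ) (hq : q + 1 < n) (y : Kap n q hq → ℂ) :
    aeval y (aP x w q hq) = aa q hq w (permMat ℂ x * lowMat (ext0 y)) := by
  unfold aP aa
  have h := mnr_map (aeval y : MvPolynomial (Kap n q hq) ℂ →ₐ[ℂ] ℂ).toRingHom w (q + 1) (by omega)
    (permMat _ x * lowMat (ext0 fun i : Kap n q hq => (X i : MvPolynomial (Kap n q hq) ℂ)) *
      permMat _ (sr q hq))
  rw [Matrix.map_mul, Matrix.map_mul, permMat_map, permMat_map, lowMat_map, ext0_map] at h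
  refine Eq.trans h ?_
  congr 4
  congr 1
  ext i
  simp

theorem aeval_bP (x w : Equiv.Perm (Fin n)) (q : ℕ) (hq : q + 1 < n) (y : Kap n q hq → ℂ) :
    aeval y (bP x w q hq) = bb q hq w (permMat ℂ x * lowMat (ext0 y)) := by
  unfold bP bb
  rw [map_neg]
  have h := mnr_map (aeval y : MvPolynomial (Kap n q hq) ℂ →ₐ[ℂ] ℂ).toRingHom w (q + 1) (by omega)
    (permMat _ x * lowMat (ext0 fun i : Kap n q hq => (X i : MvPolynomial (Kap n q hq) ℂ)))
  rw [Matrix.map_mul, permMat_map, lowMat_map, ext0_map] at h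
  congr 1
  refine Eq.trans h ?_
  congr 4
  ext i
  simp

theorem Tb_mem (x w : Equiv.Perm (Fin n)) (q : ℕ) (hq : q + 1 < n) (y : Kap n q hq → ℂ) :
    y ∈ Tb x w q hq ↔ permMat ℂ x * lowMat (ext0 y) ∈ Cell2 q hq w := Iff.rfl

theorem gam_mem_ne (x w : Equiv.Perm (Fin n)) (q : ℕ) (hq : q + 1 < n) (hx : asc x q hq)
    (hw : dsc w q hq) (y : Option (Kap n q hq) → ℂ) :
    gam y ∈ SS x w ↔ y ∈ Sne (Tb x w q hq) (aP x w q hq) (bP x w q hq) := by
  show permMat ℂ x * lowMat (gam y) ∈ Cell w ↔ (_ ∧ _)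
  rw [lowMat_gam, ← Matrix.mul_assoc, aeval_aP, aeval_bP, Tb_mem]
  constructor
  · intro h
    have h1 : permMat ℂ x * lowMat (ext0 fun i => y (some i)) ∈ Cell2 q hq w :=
      (cell2_mul_xq_iff (y none)).mp (Or.inl h)
    exact ⟨h1, (fibre1 hw h1 _).mp h⟩
  · rintro ⟨h1, h2⟩
    exact (fibre1 hw h1 _).mpr h2

theorem gam_mem_eq (x w : Equiv.Perm (Fin n)) (q : ℕ) (hq : q + 1 < n) (hx : asc x q hq)
    (hw : dsc w q hq) (y : Option (Kap n q hq) → ℂ) :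
    gam y ∈ SS x (w * sr q hq) ↔ y ∈ Seq (Tb x w q hq) (aP x w q hq) (bP x w q hq) := by
  show permMat ℂ x * lowMat (gam y) ∈ Cell _ ↔ (_ ∧ _)
  rw [lowMat_gam, ← Matrix.mul_assoc, aeval_aP, aeval_bP, Tb_mem]
  constructor
  · intro h
    have h1 : permMat ℂ x * lowMat (ext0 fun i => y (some i)) ∈ Cell2 q hq w :=
      (cell2_mul_xq_iff (y none)).mp (Or.inr h)
    exact ⟨h1, (fibre2 hw h1 _).mp h⟩
  · rintro ⟨h1, h2⟩
    exact (fibre2 hw h1 _).mpr h2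

theorem chart_s (x : Equiv.Perm (Fin n)) (q : ℕ) (hq : q + 1 < n)
    (y : Option (Kap n q hq) → ℂ) :
    permMat ℂ (x * sr q hq) * lowMat (gam' y) =
      permMat ℂ x * lowMat (ext0 fun i => y (some i)) * permMat ℂ (sr q hq) * xq q hq (y none) := by
  rw [lowMat_gam', permMat_mul]
  have h : permMat ℂ (sr q hq) * permMat ℂ (sr q hq) = 1 := by
    rw [← permMat_mul, sr_sr, permMat_one]
  simp only [Matrix.mul_assoc]
  rw [← Matrix.mul_assoc (permMat ℂ (sr q hq)) (permMat ℂ (sr q hq)), h, Matrix.one_mul]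

theorem gam'_mem_ne (x w : Equiv.Perm (Fin n)) (q : ℕ) (hq : q + 1 < n) (hx : asc x q hq)
    (hw : dsc w q hq) (y : Option (Kap n q hq) → ℂ) :
    gam' y ∈ SS (x * sr q hq) w ↔ y ∈ Sne (Tb x w q hq) (bP x w q hq) (aP x w q hq) := by
  show permMat ℂ (x * sr q hq) * lowMat (gam' y) ∈ Cell w ↔ (_ ∧ _)
  rw [chart_s, aeval_aP, aeval_bP, Tb_mem]
  constructor
  · intro h
    have h1 : permMat ℂ x * lowMat (ext0 fun i => y (some i)) ∈ Cell2 q hq w :=
      cell2_mul_sr_iff.mp ((cell2_mul_xq_iff (y none)).mp (Or.inl h))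
    exact ⟨h1, (fibre3 hw h1 _).mp h⟩
  · rintro ⟨h1, h2⟩
    exact (fibre3 hw h1 _).mpr h2

theorem gam'_mem_eq (x w : Equiv.Perm (Fin n)) (q : ℕ) (hq : q + 1 < n) (hx : asc x q hq)
    (hw : dsc w q hq) (y : Option (Kap n q hq) → ℂ) :
    gam' y ∈ SS (x * sr q hq) (w * sr q hq) ↔
      y ∈ Seq (Tb x w q hq) (bP x w q hq) (aP x w q hq) := by
  show permMat ℂ (x * sr q hq) * lowMat (gam' y) ∈ Cell _ ↔ (_ ∧ _)
  rw [chart_s, aeval_aP, aeval_bP, Tb_mem]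
  constructor
  · intro h
    have h1 : permMat ℂ x * lowMat (ext0 fun i => y (some i)) ∈ Cell2 q hq w :=
      cell2_mul_sr_iff.mp ((cell2_mul_xq_iff (y none)).mp (Or.inr h))
    exact ⟨h1, (fibre4 hw h1 _).mp h⟩
  · rintro ⟨h1, h2⟩
    exact (fibre4 hw h1 _).mpr h2

theorem ab_ne_zero (x w : Equiv.Perm (Fin n)) (q : ℕ) (hq : q + 1 < n)
    (hw : dsc w q hq) (y : Kap n q hq → ℂ) (hy : y ∈ Tb x w q hq) :
    ¬ (aeval y (aP x w q hq) = 0 ∧ aeval y (bP x w q hq) = 0) := by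
  rw [aeval_aP, aeval_bP]
  rintro ⟨h1, h2⟩
  rcases ab_ne hw hy with h | h
  · exact h h1
  · exact h h2

end CMT
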