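import Pool.Agent.H43.CM.Ch.C3

/-!
# CM, job Ch4: isomorphisms of coordinate rings

`crEquiv`: `f ∈ VI S ↔ c.E f ∈ VI S'`: if `f ∈ VI S`, `y ∈ S'`: `aeval y (E f) = aeval (g y) f = 0`; conversely if `E f ∈ VI S'` and
`z ∈ S`, `z = g y` (`g_surj`), `y ∈ S'`, `aeval z f = aeval y (E f) = 0`. So `(VI S).map E = VI S'` (an isomorphism) and
`Ideal.quotientEquivAlg`. `orig S` is the image of the ideal of the variables (`Ideal.map_span`), use `map_orig`.
`good_iff`: transport of `IsDomain`, `IsIntegrallyClosed` along the ring isomorphism (`MulEquiv.isDomain`,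
`IsIntegrallyClosed.of_equiv`) and of `Dep`: a list `rs` in `orig S` that is weakly regular on `CR S` is mapped to a weakly regular
list in `orig S'` (`RingTheory.Sequence.isWeaklyRegular_map_algebraMap...` or `AddEquiv`/`LinearEquiv`
version `..._iff`: see `Mathlib/RingTheory/Regular/RegularSequence.lean`: `AddEquiv.isWeaklyRegular_congr`). By symmetry
it is enough to prove one direction for a general ring isomorphism `e` with `(orig S).map e = orig S'`.
-/

open MvPolynomial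

noncomputable section

namespace CMT

private theorem c4_dep {R R' : Type} [CommRing R] [CommRing R'] (e : R ≃+* R') (I : Ideal R)
    (I' : Ideal R') (h : ∀ x ∈ I, e x ∈ I') (d : ℕ) (hD : Dep R I R d) : Dep R' I' R' d := by
  obtain ⟨rs, h1, h2, h3⟩ := hD
  refine ⟨rs.map e, by rw [List.length_map, h1], ?_, ?_⟩
  · intro r hr
    obtain ⟨x, hx, rfl⟩ := List.mem_map.1 hr
    exact h x (h2 x hx)
  · refine (AddEquiv.isWeaklyRegular_congr (e := e.toAddEquiv) ?_).1 h3
    refine List.forall₂_map_right_iff.mpr (List.forall₂_same.mpr fun r _ x => ?_)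
    show e (r * x) = e r * e x
    exact map_mul e r x

/-- the isomorphism of coordinate rings induced by a change of coordinates -/
theorem CoordChange.crEquiv {ι ι' : Type} (c : CoordChange ι ι') (S : Set (ι → ℂ))
    (S' : Set (ι' → ℂ)) (h : ∀ y, y ∈ S' ↔ c.g y ∈ S) :
    ∃ e : CR S ≃ₐ[ℂ] CR S', (∀ f, e (Ideal.Quotient.mk _ f) = Ideal.Quotient.mk _ (c.E f)) ∧
      (orig S).map (e : _ →+* _) = orig S' := by
  have hf : ∀ f, f ∈ VI S ↔ c.E f ∈ VI S' := by
    intro f
    rw [mem_vanishingIdeal_iff, mem_vanishingIdeal_iff]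
    constructor
    · intro h1 y hy
      rw [c.aeval_E]
      exact h1 _ ((h y).1 hy)
    · intro h1 z hz
      obtain ⟨y, rfl⟩ := c.g_surj z
      rw [← c.aeval_E]
      exact h1 _ ((h y).2 hz)
  have hIJ : VI S' = (VI S).map (c.E : _ →+* _) := by
    ext g
    have h1 : g ∈ (VI S).map (c.E : MvPolynomial ι ℂ →+* MvPolynomial ι' ℂ) ↔
        ∃ x ∈ VI S, c.E x = g := Ideal.mem_map_of_equiv c.E g
    rw [h1]
    constructor
    · intro hg
      refine ⟨c.E.symm g, ?_, c.E.apply_symm_apply g⟩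
      rw [hf, c.E.apply_symm_apply]
      exact hg
    · rintro ⟨x, hx, rfl⟩
      exact (hf x).1 hx
  obtain ⟨e, he⟩ : ∃ e : CR S ≃ₐ[ℂ] CR S', ∀ f, e (Ideal.Quotient.mk _ f) =
      Ideal.Quotient.mk _ (c.E f) :=
    ⟨Ideal.quotientEquivAlg (VI S) (VI S') c.E hIJ, fun f => rfl⟩
  refine ⟨e, he, ?_⟩
  have h1 : orig S = (Ideal.span (Set.range (X : ι → MvPolynomial ι ℂ))).map
      (Ideal.Quotient.mk (VI S)) := by
    unfold orig
    rw [Ideal.map_span, ← Set.range_comp]
    rfl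
  have h2 : orig S' = (Ideal.span (Set.range (X : ι' → MvPolynomial ι' ℂ))).map
      (Ideal.Quotient.mk (VI S')) := by
    unfold orig
    rw [Ideal.map_span, ← Set.range_comp]
    rfl
  rw [h1, h2, Ideal.map_map, ← c.map_orig, Ideal.map_map]
  congr 1
  exact RingHom.ext fun f => he f

theorem CoordChange.good_iff {ι ι' : Type} (c : CoordChange ι ι') (S : Set (ι → ℂ))
    (S' : Set (ι' → ℂ)) (h : ∀ y, y ∈ S' ↔ c.g y ∈ S) (d : ℕ) : Good S d ↔ Good S' d := by
  obtain ⟨e, he, ho⟩ := c.crEquiv S S' h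
  have hm : ∀ x ∈ orig S, e x ∈ orig S' := by
    intro x hx
    rw [← ho]
    exact Ideal.mem_map_of_mem (e : CR S →+* CR S') hx
  have hm' : ∀ x ∈ orig S', e.symm x ∈ orig S := by
    intro x hx
    rw [← ho] at hx
    have h1 : x ∈ (orig S).map (e : CR S →+* CR S') ↔ ∃ y ∈ orig S, e y = x :=
      Ideal.mem_map_of_equiv e x
    obtain ⟨y, hy, rfl⟩ := h1.1 hx
    rw [e.symm_apply_apply]
    exact hy
  have key : ∀ {R R' : Type} [CommRing R] [CommRing R'] (e : R ≃+* R'),
      IsDomain R ∧ IsIntegrallyClosed R → IsDomain R' ∧ IsIntegrallyClosed R' := by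
    intro R R' _ _ e h
    obtain ⟨h1, h2⟩ := h
    exact ⟨e.symm.toMulEquiv.isDomain R, IsIntegrallyClosed.of_equiv e⟩
  unfold Good
  constructor
  · rintro ⟨h1, h2, h3⟩
    obtain ⟨k1, k2⟩ := key (e : CR S ≃+* CR S') ⟨h1, h2⟩
    exact ⟨k1, k2, c4_dep (e : CR S ≃+* CR S') _ _ hm d h3⟩
  · rintro ⟨h1, h2, h3⟩
    obtain ⟨k1, k2⟩ := key (e.symm : CR S' ≃+* CR S) ⟨h1, h2⟩
    exact ⟨k1, k2, c4_dep (e.symm : CR S' ≃+* CR S) _ _ hm' d h3⟩

end CMT
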