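import Pool.Agent.H43.CM.Defs

/-!
# CM, job Ch5: the coordinate ring of `Sne T a b` (A'3, ne)

`toPoly_surjective`: the image contains `Polynomial.X` and all constants `C (mk f)` (`Ideal.Quotient.mk_surjective`).
`toPoly_apply` (useful): let `F = optionEquivLeft ℂ κ f : Polynomial (MvPolynomial κ ℂ)`; then
`toPoly T f = F.map (Ideal.Quotient.mk (VI T))` (algebra homomorphisms agreeing on the variables) and for `y : Option κ → ℂ`:
`aeval y f = ∑_i aeval (y ∘ some) (F.coeff i) * (y none) ^ i = (F.map (aeval (y ∘ some))).eval (y none)`.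
`VI_Sne`: `f ∈ ker (toPoly T)` iff all coefficients `F.coeff i ∈ VI T`. If so then `aeval y f = 0` for all `y` with
`y ∘ some ∈ T`. Conversely let `f` vanish on `Sne T a b`, and `y' ∈ T`. For `t : ℂ` with `a(y') t ≠ b(y')` the point `(y', t)` is in
`Sne T a b`. As `(a(y'), b(y')) ≠ (0, 0)` these are all `t` but at most one (if `a(y') = 0` then `b(y') ≠ 0`: all `t`). So the polynomial
`F.map (aeval y')` in one variable has infinitely many roots, so it is zero: `aeval y' (F.coeff i) = 0` for all `i`.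
`Sne_nonempty_iff`: same choice of `t`.
-/

open MvPolynomial

noncomputable section

namespace CMT

/-- `k[κ ∪ {t}] → CR(T)[t]` -/
def toPoly {κ : Type} (T : Set (κ → ℂ)) : MvPolynomial (Option κ) ℂ →ₐ[ℂ] Polynomial (CR T) :=
  aeval fun i => match i with
    | none => Polynomial.X
    | some j => Polynomial.C (Ideal.Quotient.mk (VI T) (X j))

theorem toPoly_apply {κ : Type} (T : Set (κ → ℂ)) (f : MvPolynomial (Option κ) ℂ) :
    toPoly T f = (optionEquivLeft ℂ κ f).map (Ideal.Quotient.mk (VI T)) := by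
  have h : (toPoly T : MvPolynomial (Option κ) ℂ →ₐ[ℂ] Polynomial (CR T)) =
      (Polynomial.mapAlgHom (Ideal.Quotient.mkₐ ℂ (VI T))).comp
        (optionEquivLeft ℂ κ).toAlgHom := by
    apply MvPolynomial.algHom_ext
    intro i
    cases i with
    | none => simp [toPoly]
    | some j => simp [toPoly]
  rw [h]
  rfl

theorem aeval_option {κ : Type} (y : Option κ → ℂ) (f : MvPolynomial (Option κ) ℂ) :
    aeval y f = ((optionEquivLeft ℂ κ f).map
      (aeval (fun i => y (some i)) : MvPolynomial κ ℂ →ₐ[ℂ] ℂ).toRingHom).eval (y none) := by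
  have h : (aeval y : MvPolynomial (Option κ) ℂ →ₐ[ℂ] ℂ) =
      (Polynomial.aeval (y none)).comp ((Polynomial.mapAlgHom
        (aeval (fun i => y (some i)) : MvPolynomial κ ℂ →ₐ[ℂ] ℂ)).comp
        (optionEquivLeft ℂ κ).toAlgHom) := by
    apply MvPolynomial.algHom_ext
    intro i
    cases i with
    | none => simp
    | some j => simp
  rw [h]
  simp [Polynomial.coe_aeval_eq_eval]

/-- the point `(y, t)` -/
def cons {κ : Type} (y : κ → ℂ) (t : ℂ) : Option κ → ℂ
  | none => t
  | some i => y i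

theorem infinite_t {a b : ℂ} (h : ¬ (a = 0 ∧ b = 0)) : {t : ℂ | a * t ≠ b}.Infinite := by
  by_cases ha : a = 0
  · have : {t : ℂ | a * t ≠ b} = Set.univ := by
      ext t
      simp only [Set.mem_setOf_eq, Set.mem_univ, iff_true]
      rw [ha, zero_mul]
      intro hb
      exact h ⟨ha, hb.symm⟩
    rw [this]
    exact Set.infinite_univ
  · have : {t : ℂ | a * t ≠ b} = {b / a}ᶜ := by
      ext t
      simp only [Set.mem_setOf_eq, Set.mem_compl_iff, Set.mem_singleton_iff]
      rw [eq_div_iff ha, mul_comm]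
    rw [this]
    exact (Set.finite_singleton _).infinite_compl

theorem VI_Sne {κ : Type} (T : Set (κ → ℂ)) (a b : MvPolynomial κ ℂ)
    (hab : ∀ y ∈ T, ¬ (aeval y a = 0 ∧ aeval y b = 0)) :
    VI (Sne T a b) = RingHom.ker (toPoly T) := by
  ext f
  have hker : f ∈ RingHom.ker (toPoly T) ↔ ∀ i, (optionEquivLeft ℂ κ f).coeff i ∈ VI T := by
    rw [RingHom.mem_ker, toPoly_apply, Polynomial.ext_iff]
    apply forall_congr'
    intro i
    rw [Polynomial.coeff_map, Polynomial.coeff_zero, Ideal.Quotient.eq_zero_iff_mem]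
  rw [hker, mem_vanishingIdeal_iff]
  constructor
  · intro hf i
    rw [mem_vanishingIdeal_iff]
    intro y hy
    have hz : (optionEquivLeft ℂ κ f).map
        (aeval y : MvPolynomial κ ℂ →ₐ[ℂ] ℂ).toRingHom = 0 := by
      apply Polynomial.eq_zero_of_infinite_isRoot
      apply (infinite_t (hab y hy)).mono
      intro t ht
      have h1 : cons y t ∈ Sne T a b := ⟨hy, ht⟩
      have h2 := hf _ h1
      rw [aeval_option] at h2
      exact h2
    have := congrArg (fun p => Polynomial.coeff p i) hz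
    simpa using this
  · intro hf y hy
    rw [aeval_option]
    have hz : (optionEquivLeft ℂ κ f).map
        (aeval (fun i => y (some i)) : MvPolynomial κ ℂ →ₐ[ℂ] ℂ).toRingHom = 0 := by
      ext i
      rw [Polynomial.coeff_map, Polynomial.coeff_zero]
      exact (mem_vanishingIdeal_iff.mp (hf i)) _ hy.1
    rw [hz, Polynomial.eval_zero]

theorem toPoly_surjective {κ : Type} (T : Set (κ → ℂ)) : Function.Surjective (toPoly T) := by
  intro g
  obtain ⟨F, hF⟩ := Polynomial.map_surjective (Ideal.Quotient.mk (VI T))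
    Ideal.Quotient.mk_surjective g
  refine ⟨(optionEquivLeft ℂ κ).symm F, ?_⟩
  rw [toPoly_apply, AlgEquiv.apply_symm_apply, hF]

theorem Sne_nonempty_iff {κ : Type} (T : Set (κ → ℂ)) (a b : MvPolynomial κ ℂ)
    (hab : ∀ y ∈ T, ¬ (aeval y a = 0 ∧ aeval y b = 0)) :
    (Sne T a b).Nonempty ↔ T.Nonempty := by
  constructor
  · rintro ⟨y, hy⟩
    exact ⟨_, hy.1⟩
  · rintro ⟨y, hy⟩
    obtain ⟨t, ht⟩ := (infinite_t (hab y hy)).nonempty
    exact ⟨cons y t, hy, ht⟩

end CMT
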