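import Pool.Agent.H43.CM.Ch.C5

/-!
# CM, job Ch6: the coordinate ring of `Seq T a b` (A'3, eq)

`Seq_nonempty_iff`: for `y' ∈ T`: some `t` has `a(y') t = b(y')` iff `a(y') ≠ 0` (if `a(y') = 0` then `b(y') ≠ 0`).
`VI_Seq`: let `F = optionEquivLeft ℂ κ f`, `f_i = F.coeff i`, `N ≥ natDegree F`. Put `g = ∑_{i ≤ N} f_i a^(N-i) b^i : MvPolynomial κ ℂ`.
(1) `f ∈ VI (Seq T a b)` iff `a g ∈ VI T`: let `y' ∈ T`. If `a(y') = 0` then `(a g)(y') = 0`. If `a(y') ≠ 0` then exactly
`t = b(y') / a(y')` has `(y', t) ∈ Seq T a b`, and `a(y')^N aeval (y', t) f = ∑ f_i(y') a(y')^(N-i) b(y')^i = g(y')` (`aeval_option`,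
`Polynomial.eval_eq_sum_range'`). So `f` vanishes at `(y', t)` iff `g(y') = 0` iff `(a g)(y') = 0`.
(2) `a g ∈ VI T` iff `g ∈ VI T` (`CR T` is a domain, `a ≠ 0` in it) iff the class of `g` is 0 in `CR T` iff it is 0 in the fraction
field, and there `[g] = [a]^N ∑ [f_i] τ^i = [a]^N * evTau T a b (toPoly T f)` (`toPoly_apply`, `Polynomial.aeval_eq_sum_range'`,
`τ = [b]/[a]`).
-/

open MvPolynomial

noncomputable section

namespace CMT

/-- the element `tau = b/a` of the fraction field of `CR T` -/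
def tau {κ : Type} (T : Set (κ → ℂ)) [IsDomain (CR T)] (a b : MvPolynomial κ ℂ) :
    FractionRing (CR T) :=
  algebraMap (CR T) _ (Ideal.Quotient.mk (VI T) b) / algebraMap (CR T) _ (Ideal.Quotient.mk (VI T) a)

/-- `CR(T)[t] → Frac CR(T)`, `t ↦ tau` -/
def evTau {κ : Type} (T : Set (κ → ℂ)) [IsDomain (CR T)] (a b : MvPolynomial κ ℂ) :
    Polynomial (CR T) →ₐ[CR T] FractionRing (CR T) :=
  Polynomial.aeval (tau T a b)

theorem C6_scale {K : Type} [CommRing K] (c : ℕ → K) (A B t : K) (N : ℕ) (h : A * t = B) :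
    A ^ N * ∑ i ∈ Finset.range (N + 1), c i * t ^ i =
      ∑ i ∈ Finset.range (N + 1), c i * A ^ (N - i) * B ^ i := by
  rw [Finset.mul_sum]
  refine Finset.sum_congr rfl fun i hi => ?_
  have hi' : i ≤ N := by
    have := Finset.mem_range.mp hi
    omega
  rw [← h, mul_pow, ← pow_sub_mul_pow A hi']
  ring

/-- the homogenisation of `f` with respect to the last variable -/
def C6_g {κ : Type} (a b : MvPolynomial κ ℂ) (f : MvPolynomial (Option κ) ℂ) :
    MvPolynomial κ ℂ :=
  ∑ i ∈ Finset.range ((optionEquivLeft ℂ κ f).natDegree + 1),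
    (optionEquivLeft ℂ κ f).coeff i * a ^ ((optionEquivLeft ℂ κ f).natDegree - i) * b ^ i

theorem C6_aeval {κ : Type} (a b : MvPolynomial κ ℂ) (f : MvPolynomial (Option κ) ℂ)
    (y : Option κ → ℂ)
    (h : aeval (fun i => y (some i)) a * y none = aeval (fun i => y (some i)) b) :
    aeval (fun i => y (some i)) a ^ (optionEquivLeft ℂ κ f).natDegree * aeval y f =
      aeval (fun i => y (some i)) (C6_g a b f) := by
  rw [aeval_option y f, Polynomial.eval_map, Polynomial.eval₂_eq_sum_range,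
    C6_scale _ _ _ _ _ h, C6_g, map_sum]
  refine Finset.sum_congr rfl fun i _ => ?_
  rw [map_mul, map_mul, map_pow, map_pow]
  rfl

theorem C6_ev {κ : Type} (T : Set (κ → ℂ)) [IsDomain (CR T)] (a b : MvPolynomial κ ℂ)
    (ha : a ∉ VI T) (f : MvPolynomial (Option κ) ℂ) :
    (algebraMap (CR T) (FractionRing (CR T)) (Ideal.Quotient.mk (VI T) a)) ^
        (optionEquivLeft ℂ κ f).natDegree * evTau T a b (toPoly T f) =
      algebraMap (CR T) (FractionRing (CR T)) (Ideal.Quotient.mk (VI T) (C6_g a b f)) := by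
  have ha' : algebraMap (CR T) (FractionRing (CR T)) (Ideal.Quotient.mk (VI T) a) ≠ 0 := by
    intro h0
    apply ha
    rw [← Ideal.Quotient.eq_zero_iff_mem]
    exact (IsFractionRing.injective (CR T) (FractionRing (CR T))) (by rw [h0, map_zero])
  have h : algebraMap (CR T) (FractionRing (CR T)) (Ideal.Quotient.mk (VI T) a) * tau T a b =
      algebraMap (CR T) (FractionRing (CR T)) (Ideal.Quotient.mk (VI T) b) := by
    unfold tau
    exact mul_div_cancel₀ _ ha'
  rw [evTau, toPoly_apply, Polynomial.aeval_def, Polynomial.eval₂_map,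
    Polynomial.eval₂_eq_sum_range, C6_scale _ _ _ _ _ h, C6_g, map_sum, map_sum]
  refine Finset.sum_congr rfl fun i _ => ?_
  rw [map_mul, map_mul, map_pow, map_pow, map_mul, map_mul, map_pow, map_pow]
  rfl

theorem VI_Seq {κ : Type} (T : Set (κ → ℂ)) [IsDomain (CR T)] (a b : MvPolynomial κ ℂ)
    (hab : ∀ y ∈ T, ¬ (aeval y a = 0 ∧ aeval y b = 0)) (ha : a ∉ VI T)
    (f : MvPolynomial (Option κ) ℂ) :
    f ∈ VI (Seq T a b) ↔ evTau T a b (toPoly T f) = 0 := by
  have ha' : Ideal.Quotient.mk (VI T) a ≠ 0 := fun h0 =>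
    ha (Ideal.Quotient.eq_zero_iff_mem.mp h0)
  have ha2 : algebraMap (CR T) (FractionRing (CR T)) (Ideal.Quotient.mk (VI T) a) ≠ 0 := by
    intro h0
    apply ha'
    exact (IsFractionRing.injective (CR T) (FractionRing (CR T))) (by rw [h0, map_zero])
  have e1 : evTau T a b (toPoly T f) = 0 ↔ C6_g a b f ∈ VI T := by
    rw [← Ideal.Quotient.eq_zero_iff_mem]
    have h := C6_ev T a b ha f
    constructor
    · intro h0
      rw [h0, mul_zero] at h
      exact (IsFractionRing.injective (CR T) (FractionRing (CR T))) (by rw [← h, map_zero])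
    · intro h0
      rw [h0, map_zero] at h
      rcases mul_eq_zero.mp h with h1 | h1
      · exact absurd h1 (pow_ne_zero _ ha2)
      · exact h1
  have e2 : C6_g a b f ∈ VI T ↔ a * C6_g a b f ∈ VI T := by
    constructor
    · intro h
      exact Ideal.mul_mem_left _ _ h
    · intro h
      rw [← Ideal.Quotient.eq_zero_iff_mem, map_mul] at h
      rcases mul_eq_zero.mp h with h1 | h1
      · exact absurd h1 ha'
      · exact Ideal.Quotient.eq_zero_iff_mem.mp h1
  rw [e1, e2, mem_vanishingIdeal_iff, mem_vanishingIdeal_iff]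
  constructor
  · intro h y hy
    rw [map_mul]
    by_cases hα : aeval y a = 0
    · rw [hα, zero_mul]
    · obtain ⟨z, hz1, hz2⟩ : ∃ z : Option κ → ℂ, (fun i => z (some i)) = y ∧
          z none = aeval y b / aeval y a :=
        ⟨fun o => o.elim (aeval y b / aeval y a) y, rfl, rfl⟩
      have hz : z ∈ Seq T a b := by
        refine ⟨by rw [hz1]; exact hy, ?_⟩
        rw [hz1, hz2]
        exact mul_div_cancel₀ _ hα
      have h1 := C6_aeval a b f _ hz.2
      rw [h _ hz, mul_zero, hz1] at h1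
      rw [← h1, mul_zero]
  · intro h y hy
    have h1 := C6_aeval a b f y hy.2
    have hα : aeval (fun i => y (some i)) a ≠ 0 := by
      intro h0
      refine hab _ hy.1 ⟨h0, ?_⟩
      rw [← hy.2, h0, zero_mul]
    have h2 := h _ hy.1
    rw [map_mul] at h2
    rcases mul_eq_zero.mp h2 with h3 | h3
    · exact absurd h3 hα
    · rw [h3] at h1
      rcases mul_eq_zero.mp h1 with h4 | h4
      · exact absurd h4 (pow_ne_zero _ hα)
      · exact h4

theorem Seq_nonempty_iff {κ : Type} (T : Set (κ → ℂ)) (a b : MvPolynomial κ ℂ)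
    (hab : ∀ y ∈ T, ¬ (aeval y a = 0 ∧ aeval y b = 0)) :
    (Seq T a b).Nonempty ↔ a ∉ VI T := by
  rw [mem_vanishingIdeal_iff]
  constructor
  · rintro ⟨y, hy⟩ h
    refine hab _ hy.1 ⟨h _ hy.1, ?_⟩
    rw [← hy.2, h _ hy.1, zero_mul]
  · intro h
    push Not at h
    obtain ⟨y, hy, hα⟩ := h
    refine ⟨fun o : Option κ => o.elim (aeval y b / aeval y a) y, hy, ?_⟩
    show aeval y a * (aeval y b / aeval y a) = aeval y b
    exact mul_div_cancel₀ _ hα

end CMT
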