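import Pool.Agent.H43.CM.Ch.C1
import Pool.Agent.H43.CM.Ch.C2
import Pool.Agent.H43.CM.Ch.C3
import Pool.Agent.H43.CM.Ch.C3b
import Pool.Agent.H43.CM.Ch.C4
import Pool.Agent.H43.CM.Ch.C5
import Pool.Agent.H43.CM.Ch.C6

/-!
# MP_7fe4b4_ag : interface of PART A' (charts): list of imports.

`map_gam`, `map_gam'`, `lowMat_gam`, `lowMat_gam'` (C1), `gam_mem_ne`, `gam_mem_eq`, `gam'_mem_ne`, `gam'_mem_eq`,
`ab_ne_zero` (C2), `CoordChange`, `exists_gamE` (C3), `exists_gamE'` (C3b), `CoordChange.crEquiv`,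
`CoordChange.good_iff` (C4), `toPoly`, `VI_Sne`, `toPoly_surjective`, `Sne_nonempty_iff` (C5), `tau`, `evTau`, `VI_Seq`,
`Seq_nonempty_iff` (C6).
-/
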